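import Pool.Agent.Results.MP_0c9a68_nt.PowerSavingNearConstant
import Pool.Agent.V11260.MS2

/-!
# Correlations of multiplicative functions at all the shifts in windows around almost all directions
-/

set_option autoImplicit false

namespace Pool.Agent.Results.MP_0c9a68_nt.AlmostAllDirections

open Finset MeasureTheory
open Pool.Agent.Results.MP_0c9a68_nt.PowerSavingNearConstant (ext num Near NonExceptional Tuples)

/-- For ALL the tuples `m` of positive integers with `|m i - α i N ^ (1 / deg P i)| ≤ N ^ θ` for all `i`, and for all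
`1 ≤ a i ≤ A`, the correlation `∑ n ≤ X, ∏ i, g i (a i * n + P i (m i))` is at most `ε N` in absolute value, for all
`X ≤ N`. -/
def AllNear (A : ℕ) {r : ℕ} (P : Fin r → Polynomial ℤ) (ε θ : ℝ) (N : ℕ) (g : Fin r → ℕ → ℂ)
    (α : Fin r → ℝ) : Prop :=
  ∀ m : Fin r → ℕ, (∀ i, 1 ≤ m i) →
    (∀ i, |(m i : ℝ) - α i * (N : ℝ) ^ (1 / ((P i).natDegree : ℝ))| ≤ (N : ℝ) ^ θ) →
    ∀ a : Fin r → ℕ, (∀ i, 1 ≤ a i ∧ a i ≤ A) → ∀ X : ℕ, X ≤ N →
      ‖∑ n ∈ Icc 1 X, ∏ i, ext (g i) (a i * n + (P i).eval (m i : ℤ))‖ ≤ ε * N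

/-- the exceptional tuples -/
def bad (A : ℕ) {r : ℕ} (P : Fin r → Polynomial ℤ) (ε : ℝ) (N : ℕ) (g : Fin r → ℕ → ℂ) : Set (Fin r → ℕ) :=
  {m | ¬ ∀ a : Fin r → ℕ, (∀ i, 1 ≤ a i ∧ a i ≤ A) → ∀ X : ℕ, X ≤ N →
      ‖∑ n ∈ Icc 1 X, ∏ i, ext (g i) (a i * n + (P i).eval (m i : ℤ))‖ ≤ ε * N}

lemma mem_num {α : Type} {S : Finset α} {E : α → Prop} {a : α} (h1 : a ∈ S) (h2 : E a) :
    a ∈ @Finset.filter α E (fun a => Classical.propDecidable (E a)) S :=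
  (@Finset.mem_filter α E (fun a => Classical.propDecidable (E a)) S a).2 ⟨h1, h2⟩

lemma cnt_bad {A K r : ℕ} {P : Fin r → Polynomial ℤ} {d : Fin r → ℕ} {ε δ : ℝ} {N : ℕ} (hN : 1 ≤ N)
    (hNA : (A : ℝ) ^ r ≤ (N : ℝ) ^ (δ / 2)) {g : Fin r → ℕ → ℂ}
    (h : ∀ a : Fin r → ℕ, (∀ i, 1 ≤ a i ∧ a i ≤ A) →
      num (Fintype.piFinset fun i => Icc 1 (Pool.Agent.V11260.MS.len K (d i) N)) (fun m => ¬ ∀ X : ℕ, X ≤ N →
      ‖∑ n ∈ Icc 1 X, ∏ i, ext (g i) (a i * n + (P i).eval (m i : ℤ))‖ ≤ ε * N) ≤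
        (∏ i, (Pool.Agent.V11260.MS.len K (d i) N : ℝ)) * (N : ℝ) ^ (-δ)) :
    Pool.Agent.V11260.MS.cnt K d N (bad A P ε N g) ≤
      (∏ i, (Pool.Agent.V11260.MS.len K (d i) N : ℝ)) * (N : ℝ) ^ (-(δ / 2)) := by
  classical
  have hN0 : (0 : ℝ) < N := by exact_mod_cast hN
  set B : Finset (Fin r → ℕ) := Fintype.piFinset fun i => Icc 1 (Pool.Agent.V11260.MS.len K (d i) N) with hB
  set As : Finset (Fin r → ℕ) := Fintype.piFinset fun _ => Icc 1 A with hAs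
  have h1 : Pool.Agent.V11260.MS.cnt K d N (bad A P ε N g) ≤
      ∑ a ∈ As, num B (fun m => ¬ ∀ X : ℕ, X ≤ N →
      ‖∑ n ∈ Icc 1 X, ∏ i, ext (g i) (a i * n + (P i).eval (m i : ℤ))‖ ≤ ε * N) := by
    unfold Pool.Agent.V11260.MS.cnt num
    rw [← Nat.cast_sum]
    apply Nat.cast_le.2
    refine le_trans ?_ card_biUnion_le
    apply card_le_card
    intro m hm
    rw [mem_filter] at hm
    obtain ⟨hm1, hm2⟩ := hm
    unfold bad at hm2
    rw [Set.mem_ofPred_eq] at hm2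
    push Not at hm2
    obtain ⟨a, ha, X, hX, h3⟩ := hm2
    rw [mem_biUnion]
    refine ⟨a, ?_, ?_⟩
    · rw [hAs, Fintype.mem_piFinset]
      exact fun i => mem_Icc.2 (ha i)
    · refine mem_num hm1 ?_
      push Not
      exact ⟨X, hX, h3⟩
  refine h1.trans ((sum_le_sum (g := fun _ => (∏ i, (Pool.Agent.V11260.MS.len K (d i) N : ℝ)) * (N : ℝ) ^ (-δ))
    fun a ha => ?_).trans ?_)
  · rw [hAs, Fintype.mem_piFinset] at ha
    exact h a fun i => mem_Icc.1 (ha i)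
  · rw [sum_const, nsmul_eq_mul]
    have h2 : ((As.card : ℕ) : ℝ) = (A : ℝ) ^ r := by
      rw [hAs, Fintype.card_piFinset]
      simp
    rw [h2]
    have h3 : (N : ℝ) ^ (δ / 2) * (N : ℝ) ^ (-δ) = (N : ℝ) ^ (-(δ / 2)) := by
      rw [← Real.rpow_add hN0]; congr 1; ring
    calc (A : ℝ) ^ r * ((∏ i, (Pool.Agent.V11260.MS.len K (d i) N : ℝ)) * (N : ℝ) ^ (-δ)) ≤
          (N : ℝ) ^ (δ / 2) * ((∏ i, (Pool.Agent.V11260.MS.len K (d i) N : ℝ)) * (N : ℝ) ^ (-δ)) :=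
          mul_le_mul_of_nonneg_right hNA (by positivity)
      _ = (∏ i, (Pool.Agent.V11260.MS.len K (d i) N : ℝ)) * (N : ℝ) ^ (-(δ / 2)) := by rw [← h3]; ring

open Classical in
/-- Let `w₀ ≠ 1` be a complex number with `|w₀| ≤ 1`, let `P 1, ..., P r` be nonconstant integer polynomials, `A`, `K`
integers and `ε > 0`. There are `E ≥ 1`, `D ≥ 6 E + 2`, `η > 0` and `θ > 0` such that, for arbitrary functions
`g N 1, ..., g N r` bounded by `1` (which may depend on the scale `N`), almost all `α` in `[0, K] ^ r` (Lebesgue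
measure) have the following properties. Call the scale `N` admissible if one of the `g N j` is multiplicative (with
respect to the primes between `N ^ (3 / D)` and `N ^ (1 / 2)`) and within `η` of `w₀` on average on the primes between
`N ^ (3 / D)` and `N ^ (3 E / D)`, and, in the case `w₀ = -1`, the scale `N` is not exceptional. (1) For all `X`, all
but at most `G X ^ (1 - θ)` of the admissible `N ≤ X` (`G` depends on `α`) are such that, for ALL the tuples `m` of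
positive integers with `|m i - α i N ^ (1 / deg P i)| ≤ N ^ θ` for all `i` and all `a i ≤ A`,
`|∑ n ≤ X, ∏ i, g N i (a i * n + P i (m i))| ≤ ε N` for all `X ≤ N`. (2) If there are arbitrarily large admissible
scales, there are arbitrarily large ones with the property in (1). There are arbitrarily large scales that are not
exceptional. -/
theorem result (w₀ : ℂ) (hw₀ : ‖w₀‖ ≤ 1) (hw₁ : w₀ ≠ 1) (A K r : ℕ) (P : Fin r → Polynomial ℤ)
    (hP : ∀ i, 1 ≤ (P i).natDegree) (ε : ℝ) (hε : 0 < ε) :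
    ∃ E D : ℕ, 1 ≤ E ∧ 6 * E + 2 ≤ D ∧ ∃ η θ : ℝ, 0 < η ∧ 0 < θ ∧
      (∀ g : ℕ → Fin r → ℕ → ℂ, (∀ N i n, ‖g N i n‖ ≤ 1) →
        ∀ᵐ α : Fin r → ℝ, (∀ i, 0 ≤ α i ∧ α i ≤ K) →
          (∃ G : ℝ, ∀ X : ℕ, (((Icc 1 X).filter (fun N => (w₀ = -1 → NonExceptional E D N) ∧
            (∃ j, Near w₀ η E D N (g N j)) ∧ ¬ AllNear A P ε θ N (g N) α)).card : ℝ) ≤ G * (X : ℝ) ^ (1 - θ)) ∧
          ((∀ N₁ : ℕ, ∃ N : ℕ, N₁ ≤ N ∧ (w₀ = -1 → NonExceptional E D N) ∧ ∃ j, Near w₀ η E D N (g N j)) →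
            ∀ N₁ : ℕ, ∃ N : ℕ, N₁ ≤ N ∧ (w₀ = -1 → NonExceptional E D N) ∧ (∃ j, Near w₀ η E D N (g N j)) ∧
              AllNear A P ε θ N (g N) α)) ∧
      ∀ N₁ : ℕ, ∃ N : ℕ, N₁ ≤ N ∧ NonExceptional E D N := by
  set d : Fin r → ℕ := fun i => (P i).natDegree with hd
  set T : ℕ := ∑ i, d i with hT
  have hdT : ∀ i, d i ≤ T := fun i => single_le_sum (f := d) (fun _ _ => Nat.zero_le _) (mem_univ i)
  set A' : ℕ := A + (K + 1) ^ T with hA'
  obtain ⟨E, D, hE, hD, η, δ, hη, hδ, ⟨N₀, hmain⟩, hexc⟩ :=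
    Pool.Agent.Results.MP_0c9a68_nt.PowerSavingNearConstant.result w₀ hw₀ hw₁ A' r P hP ε hε
  obtain ⟨N₁, hN₁⟩ := Pool.Agent.V11260.MS.len_ok (K := K) (D := T) hδ
  obtain ⟨N₂, hN₂⟩ : ∃ N₂ : ℕ, ∀ N : ℕ, N₂ ≤ N → (A : ℝ) ^ r ≤ (N : ℝ) ^ (δ / 2) := by
    have h1 : Filter.Tendsto (fun N : ℕ => (N : ℝ) ^ (δ / 2)) Filter.atTop Filter.atTop :=
      (tendsto_rpow_atTop (by positivity)).comp tendsto_natCast_atTop_atTop
    obtain ⟨N₂, h2⟩ := Filter.eventually_atTop.1 (h1.eventually_ge_atTop ((A : ℝ) ^ r))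
    exact ⟨N₂, h2⟩
  set θ : ℝ := min (δ / (4 * ((r : ℝ) + 1))) (1 / ((T : ℝ) + 1)) with hθ
  have hθ0 : 0 < θ := lt_min (by positivity) (by positivity)
  have hθ1 : θ ≤ 1 := by
    refine (min_le_right _ _).trans ?_
    rw [div_le_one (by positivity)]
    linarith [(Nat.cast_nonneg T : (0 : ℝ) ≤ T)]
  have hθd : ∀ i, θ ≤ 1 / (d i : ℝ) := by
    intro i
    refine (min_le_right _ _).trans ?_
    have h1 : (1 : ℝ) ≤ d i := by exact_mod_cast hP i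
    have h2 : (d i : ℝ) ≤ T := by exact_mod_cast hdT i
    exact one_div_le_one_div_of_le (by linarith) (by linarith)
  have hlt : (r : ℝ) * θ + θ < δ / 2 := by
    have h1 : ((r : ℝ) + 1) * θ ≤ (r + 1) * (δ / (4 * ((r : ℝ) + 1))) :=
      mul_le_mul_of_nonneg_left (min_le_left _ _) (by positivity)
    have h2 : ((r : ℝ) + 1) * (δ / (4 * ((r : ℝ) + 1))) = δ / 4 := by
      field_simp
    linarith
  set N₃ : ℕ := N₀ + N₁ + N₂ with hN₃
  refine ⟨E, D, hE, hD, η, θ, hη, hθ0, fun g hg => ?_, hexc⟩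
  -- the admissible scales
  set Adm : ℕ → Prop := fun N => (w₀ = -1 → NonExceptional E D N) ∧ ∃ j, Near w₀ η E D N (g N j) with hAdm
  have hc : ∀ N : ℕ, 1 ≤ N → (N₃ ≤ N ∧ Adm N) → Pool.Agent.V11260.MS.cnt K d N (bad A P ε N (g N)) ≤
      (∏ i, (Pool.Agent.V11260.MS.len K (d i) N : ℝ)) * (N : ℝ) ^ (-(δ / 2)) := by
    intro N hN hP'
    refine cnt_bad hN (hN₂ N (by omega)) fun a ha => ?_
    refine hmain N (by omega) hP'.2.1 (g N) (hg N) hP'.2.2 a (fun i => ⟨(ha i).1, (ha i).2.trans (Nat.le_add_right _ _)⟩)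
      (fun i => Pool.Agent.V11260.MS.len K (d i) N) (fun i => ⟨?_, ?_⟩)
    · refine (Pool.Agent.V11260.MS.len_pow (hP i)).trans (Nat.mul_le_mul_right _ ?_)
      exact (Nat.pow_le_pow_right (Nat.succ_pos K) (hdT i)).trans (Nat.le_add_left _ _)
    · exact hN₁ N (by omega) hN (d i) (hP i) (hdT i)
  have key1 := Pool.Agent.V11260.MS.ae_windows d K (fun N => bad A P ε N (g N)) (fun N => N₃ ≤ N ∧ Adm N) hθd hlt hc
  have hneg : ∀ (N : ℕ) (α : Fin r → ℝ), ¬ AllNear A P ε θ N (g N) α →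
      ∃ m, Pool.Agent.V11260.MS.Win d θ N α m ∧ m ∈ bad A P ε N (g N) := by
    intro N α h1
    unfold AllNear at h1
    push Not at h1
    obtain ⟨m, hm1, hm2, a, ha, X, hX, h3⟩ := h1
    refine ⟨m, ⟨hm1, hm2⟩, ?_⟩
    unfold bad
    rw [Set.mem_ofPred_eq]
    push Not
    exact ⟨a, ha, X, hX, h3⟩
  have key2 : ∀ᵐ α : Fin r → ℝ, (∀ i, 0 ≤ α i ∧ α i ≤ K) → (∀ N₁ : ℕ, ∃ N : ℕ, N₁ ≤ N ∧ Adm N) →
      ∀ N₁ : ℕ, ∃ N : ℕ, N₁ ≤ N ∧ Adm N ∧ AllNear A P ε θ N (g N) α := by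
    by_cases hinf : ∀ N₁ : ℕ, ∃ N : ℕ, N₁ ≤ N ∧ Adm N
    · obtain ⟨v, hv1, hv2⟩ := Pool.Agent.V11260.MS.exists_seq
        (P := fun N => N₃ ≤ N ∧ Adm N) (fun N₄ => by
          obtain ⟨N, h1, h2⟩ := hinf (N₄ + N₃)
          exact ⟨N, by omega, by omega, h2⟩)
      have key3 := Pool.Agent.V11260.MS.ae_windows_seq d K
        (fun N => bad A P ε N (g N)) (fun N => N₃ ≤ N ∧ Adm N) hθd
        hc v (fun n => ⟨Nat.one_le_two_pow.trans (hv1 n), hv2 n⟩)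
        (Pool.Agent.V11260.MS.summable_seq hv1 (by linarith))
      filter_upwards [key3] with α h2 hα _ N₄
      obtain ⟨n₀, h3⟩ := Filter.eventually_atTop.1 (h2 hα)
      refine ⟨v (max n₀ N₄), ?_, (hv2 _).2, ?_⟩
      · have h4 := hv1 (max n₀ N₄)
        have h5 : max n₀ N₄ < 2 ^ (max n₀ N₄) := Nat.lt_two_pow_self
        have h6 := le_max_right n₀ N₄
        omega
      · by_contra h7
        obtain ⟨m, hm1, hm2⟩ := hneg _ _ h7
        exact h3 (max n₀ N₄) (le_max_left _ _) m hm1 hm2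
    · exact Filter.Eventually.of_forall fun α _ h => absurd h hinf
  filter_upwards [key1, key2] with α h1 h2 hα
  refine ⟨?_, fun h3 N₄ => ?_⟩
  · obtain ⟨G, hG⟩ := h1 hα
    refine ⟨(N₃ : ℝ) + G, fun X => ?_⟩
    refine le_trans (le_of_eq ?_) (Pool.Agent.V11260.MS.card_of_sums hθ1
      (Q := fun N => (w₀ = -1 → NonExceptional E D N) ∧
            (∃ j, Near w₀ η E D N (g N j)) ∧ ¬ AllNear A P ε θ N (g N) α)
      (N₀ := N₃) (G := G) (fun F hF => ?_) X)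
    · congr!
    · apply hG F
      intro N hN
      obtain ⟨h3, h4, h5, h6, h7⟩ := hF N hN
      exact ⟨h3, ⟨h4, h5, h6⟩, hneg N α h7⟩
  · obtain ⟨N, h4, ⟨h5, h6⟩, h7⟩ := h2 hα h3 N₄
    exact ⟨N, h4, h5, h6, h7⟩

end Pool.Agent.Results.MP_0c9a68_nt.AlmostAllDirections
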