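import Pool.Agent.V11251.DS.Mix2

/-!
# Elliott type correlations with one factor λ or μ and arbitrary other factors, for palindromic shifts

The laws of the random integers and the second moments of the correlations of one arbitrary function with the Moebius
function are in the starting files (`Pool.Agent.W93`, `Pool.Agent.TH872`); new are the palindromes and the rearranged digits
for these correlations, several random shifts and the theorem (`Pool.Agent.V11251.DS`).
-/

set_option autoImplicit false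

namespace Pool.Agent.Results.MP_0c9a68_nt.PalindromicShifts

open Finset

/-- `v` is a palindrome with exactly `k` digits in base `b`: the digit number `j` (which is
`v / b ^ j % b`) is equal to the digit number `k - 1 - j`, for all `j < k`. -/
def IsPalindrome (b k v : ℕ) : Prop :=
  b ^ (k - 1) ≤ v ∧ v < b ^ k ∧ ∀ j < k, v / b ^ j % b = v / b ^ (k - 1 - j) % b

open Classical in
/-- The palindromes with exactly `k` digits in base `b`. -/
noncomputable def pal (b k : ℕ) : Finset ℕ := (range (b ^ k)).filter (IsPalindrome b k)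

/-- The function `f` is the Liouville function `λ(m) = (-1) ^ Ω(m)` or the Möbius function. -/
def LiouvilleOrMobius (f : ℕ → ℂ) : Prop :=
  (∀ m, 1 ≤ m → f m = (-1) ^ ArithmeticFunction.cardFactors m) ∨ (∀ m, 1 ≤ m → f m = ((ArithmeticFunction.moebius m : ℤ) : ℂ))

/-- For the first `L` of the weights `w l` and vectors of functions `g l` and for all `X ≤ N`, the sum over `n ≤ X` of `w l n`
times the product of the `g l i (a i n + h i)`, `i < s`, is at most `N / log ^ U N` in absolute value. -/
def Good {s : ℕ} (U L N : ℕ) (a : Fin s → ℕ) (w : ℕ → ℕ → ℂ) (g : ℕ → Fin s → ℕ → ℂ) (h : Fin s → ℕ) : Prop :=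
  ∀ l < L, ∀ X ≤ N, ‖∑ n ∈ Icc 1 X, w l n * ∏ i, g l i (a i * n + h i)‖ ≤ N / Real.log N ^ U

/-- the extension to the integers -/
noncomputable def ext (f : ℕ → ℂ) (x : ℤ) : ℂ := if 1 ≤ x then f x.toNat else 0

lemma ext_norm (f : ℕ → ℂ) (hf : ∀ m, ‖f m‖ ≤ 1) (x : ℤ) : ‖ext f x‖ ≤ 1 := by
  unfold ext
  split_ifs
  · exact hf _
  · rw [norm_zero]; exact zero_le_one

lemma ext_LM (f : ℕ → ℂ) (hf : LiouvilleOrMobius f) : Pool.Agent.V11251.DS.LM (ext f) := by
  rcases hf with hf | hf
  · left
    intro x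
    unfold ext Pool.Agent.H373R2.T7.exI Pool.Agent.H373R2.T7.liR
    by_cases h : 1 ≤ x
    · rw [if_pos h, if_pos h, hf _ (by omega)]
    · rw [if_neg h, if_neg h]
  · right
    intro x
    unfold ext Pool.Agent.H373R2.T7.exI Pool.Agent.H373R2.T7.muC
    by_cases h : 1 ≤ x
    · rw [if_pos h, if_pos h, hf _ (by omega)]
    · rw [if_neg h, if_neg h]

lemma ext_form (f : ℕ → ℂ) (a h n : ℕ) (x : ℤ) (hx : x = (h : ℤ)) (ha : 1 ≤ a) (hn : 1 ≤ n) :
    ext f ((a : ℤ) * (n : ℤ) + x) = f (a * n + h) := by
  have h1 : (a : ℤ) * (n : ℤ) + x = ((a * n + h : ℕ) : ℤ) := by rw [hx]; push_cast; rfl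
  have h2 : 1 ≤ a * n := Nat.mul_pos ha hn
  unfold ext
  rw [h1, if_pos (by exact_mod_cast (by omega : 1 ≤ a * n + h)), Int.toNat_natCast]

open Classical in
/-- Let `s`, bases `b i ≥ 2`, multipliers `κ i ≥ 1` and coefficients `a i ≥ 1` (`i < s`), `B`, `T` and `U` be fixed, let `N` be
large, let `k i` be lengths with `N / B ≤ b i ^ k i ≤ B N`, let `0 ≤ c i ≤ B N`. For `l < L ≤ log ^ T N` let `w l` and
`g l 1, ..., g l s` be ARBITRARY functions bounded by `1` in absolute value, except that at least one of the functions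
`g l 1, ..., g l s` should be the Liouville function or the Möbius function; in particular the other functions may be
arbitrary multiplicative functions, and they may depend on `N`. Then all the vectors `(v 1, ..., v s)` of palindromes `v i`
with exactly `k i` digits in base `b i`, with the exception of a proportion of at most `1 / log ^ U N` of these vectors, have
the following property, with `h i = c i + κ i v i`: for all `l < L` and all `X ≤ N`, the sum over `n ≤ X` of
`w l n * ∏ i, g l i (a i n + h i)` is at most `N / log ^ U N` in absolute value. -/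
theorem result (s : ℕ) (b : Fin s → ℕ) (hb : ∀ i, 2 ≤ b i) (a κ : Fin s → ℕ) (ha : ∀ i, 1 ≤ a i) (hκ : ∀ i, 1 ≤ κ i)
    (B T U : ℕ) :
    ∃ N₀ : ℕ, ∀ N, N₀ ≤ N → ∀ k : Fin s → ℕ, (∀ i, N ≤ B * b i ^ k i ∧ b i ^ k i ≤ B * N) →
      ∀ c : Fin s → ℕ, (∀ i, c i ≤ B * N) → ∀ L : ℕ, (L : ℝ) ≤ Real.log N ^ T →
      ∀ (w : ℕ → ℕ → ℂ) (g : ℕ → Fin s → ℕ → ℂ), (∀ l n, ‖w l n‖ ≤ 1) → (∀ l i m, ‖g l i m‖ ≤ 1) →
      (∀ l < L, ∃ i, LiouvilleOrMobius (g l i)) →
      (((Fintype.piFinset fun i => pal (b i) (k i)).filter fun v : Fin s → ℕ =>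
        ¬ Good U L N a w g (fun i => c i + κ i * v i)).card : ℝ) ≤
      ((Fintype.piFinset fun i => pal (b i) (k i)).card : ℝ) / Real.log N ^ U := by
  obtain ⟨n1, h1⟩ := Pool.Agent.V11251.DS.mix_pal s b hb a (fun i => (κ i : ℤ)) ha
    (fun i => by have := hκ i; exact_mod_cast (by omega : κ i ≠ 0)) B T U
  refine ⟨n1, fun N hN k hk c hc L hL w g hw hg hLM => ?_⟩
  exact h1 N hN k (fun i => ⟨(hk i).2, (hk i).1⟩) (fun i => (c i : ℤ)) (fun i => by
      rw [abs_of_nonneg (by positivity)]; exact_mod_cast hc i) (Fin L) (by rw [Fintype.card_fin]; exact hL)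
    (fun l n => w l n) (fun l i x => ext (g l i) x) (fun l n => hw l n) (fun l i x => ext_norm _ (hg l i) x)
    (fun l => by
      obtain ⟨i, hi⟩ := hLM l l.2
      exact ⟨i, ext_LM _ hi⟩) (fun v : Fin s → ℕ => Good U L N a w g (fun i => c i + κ i * v i)) (fun v hv => by
      intro l hl X hX
      have h3 := hv ⟨l, hl⟩ X hX
      refine le_of_eq_of_le ?_ h3
      congr 1
      apply sum_congr rfl
      intro n hn
      congr 1
      apply prod_congr rfl
      intro i _
      exact (ext_form (g l i) (a i) (c i + κ i * v i) n _ (by push_cast; rfl) (ha i) (mem_Icc.1 hn).1).symm)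

end Pool.Agent.Results.MP_0c9a68_nt.PalindromicShifts
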