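import Pool.Agent.V11251.DS.Mix2

/-!
# Elliott type correlations with one factor λ or μ and arbitrary other factors, for shifts with rearranged digits

The laws of the random integers and the second moments of the correlations of one arbitrary function with the Moebius
function are in the starting files (`Pool.Agent.W93`, `Pool.Agent.TH872`); new are the palindromes and the rearranged digits
for these correlations, several random shifts and the theorem (`Pool.Agent.V11251.DS`).
-/

set_option autoImplicit false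

namespace Pool.Agent.Results.MP_0c9a68_nt.RearrangedShifts

open Finset

/-- `d` is a word of `k` digits in base `b`, in which no digit stands at more than `(1 - η) k` places. -/
def Mixed (b k : ℕ) (η : ℝ) (d : Fin k → ℕ) : Prop :=
  (∀ i, d i < b) ∧ ∀ a, ((univ.filter fun i => d i = a).card : ℝ) ≤ (1 - η) * k

/-- The integer whose `k` digits in base `b` are the digits `d` rearranged by the permutation `σ`: the digit number `j`
(the coefficient of `b ^ j`) is `d (σ j)`. -/
def rearranged (b : ℕ) {k : ℕ} (d : Fin k → ℕ) (σ : Equiv.Perm (Fin k)) : ℕ := ∑ j : Fin k, d (σ j) * b ^ (j : ℕ)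

/-- The function `f` is the Liouville function `λ(m) = (-1) ^ Ω(m)` or the Möbius function. -/
def LiouvilleOrMobius (f : ℕ → ℂ) : Prop :=
  (∀ m, 1 ≤ m → f m = (-1) ^ ArithmeticFunction.cardFactors m) ∨ (∀ m, 1 ≤ m → f m = ((ArithmeticFunction.moebius m : ℤ) : ℂ))

/-- For the first `L` of the weights `w l` and vectors of functions `g l` and for all `X ≤ N`, the sum over `n ≤ X` of `w l n`
times the product of the `g l i (a i n + h i)`, `i < s`, is at most `N / log ^ U N` in absolute value. -/
def Good {s : ℕ} (U L N : ℕ) (a : Fin s → ℕ) (w : ℕ → ℕ → ℂ) (g : ℕ → Fin s → ℕ → ℂ) (h : Fin s → ℕ) : Prop :=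
  ∀ l < L, ∀ X ≤ N, ‖∑ n ∈ Icc 1 X, w l n * ∏ i, g l i (a i * n + h i)‖ ≤ N / Real.log N ^ U

/-- the extension to the integers -/
noncomputable def ext (f : ℕ → ℂ) (x : ℤ) : ℂ := if 1 ≤ x then f x.toNat else 0

lemma ext_norm (f : ℕ → ℂ) (hf : ∀ m, ‖f m‖ ≤ 1) (x : ℤ) : ‖ext f x‖ ≤ 1 := by
  unfold ext
  split_ifs
  · exact hf _
  · rw [norm_zero]; exact zero_le_one

lemma ext_LM (f : ℕ → ℂ) (hf : LiouvilleOrMobius f) : Pool.Agent.V11251.DS.LM (ext f) := by
  rcases hf with hf | hf
  · left
    intro x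
    unfold ext Pool.Agent.H373R2.T7.exI Pool.Agent.H373R2.T7.liR
    by_cases h : 1 ≤ x
    · rw [if_pos h, if_pos h, hf _ (by omega)]
    · rw [if_neg h, if_neg h]
  · right
    intro x
    unfold ext Pool.Agent.H373R2.T7.exI Pool.Agent.H373R2.T7.muC
    by_cases h : 1 ≤ x
    · rw [if_pos h, if_pos h, hf _ (by omega)]
    · rw [if_neg h, if_neg h]

lemma ext_form (f : ℕ → ℂ) (a h n : ℕ) (x : ℤ) (hx : x = (h : ℤ)) (ha : 1 ≤ a) (hn : 1 ≤ n) :
    ext f ((a : ℤ) * (n : ℤ) + x) = f (a * n + h) := by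
  have h1 : (a : ℤ) * (n : ℤ) + x = ((a * n + h : ℕ) : ℤ) := by rw [hx]; push_cast; rfl
  have h2 : 1 ≤ a * n := Nat.mul_pos ha hn
  unfold ext
  rw [h1, if_pos (by exact_mod_cast (by omega : 1 ≤ a * n + h)), Int.toNat_natCast]

open Classical in
/-- Let `s`, bases `b i ≥ 2`, multipliers `κ i ≥ 1` and coefficients `a i ≥ 1` (`i < s`), `η > 0`, `B`, `T` and `U` be fixed, let
`N` be large, let `k i` be lengths with `N / B ≤ b i ^ k i ≤ B N`, let `0 ≤ c i ≤ B N`, and let `d i` be ANY word of `k i` digits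
in base `b i` in which no digit stands at more than `(1 - η) k i` places. For `l < L ≤ log ^ T N` let `w l` and
`g l 1, ..., g l s` be ARBITRARY functions bounded by `1` in absolute value, except that at least one of the functions
`g l 1, ..., g l s` should be the Liouville function or the Möbius function; in particular the other functions may be
arbitrary multiplicative functions, and they may depend on `N`. Rearrange the digits of each `d i` by a permutation `σ i`,
let `v i` be the integer with the rearranged digits, and put `h i = c i + κ i v i`. Then all the vectors `(σ 1, ..., σ s)` of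
permutations, with the exception of a proportion of at most `1 / log ^ U N` of them, have the following property: for all
`l < L` and all `X ≤ N`, the sum over `n ≤ X` of `w l n * ∏ i, g l i (a i n + h i)` is at most `N / log ^ U N` in absolute
value. -/
theorem result (s : ℕ) (b : Fin s → ℕ) (hb : ∀ i, 2 ≤ b i) (η : ℝ) (hη : 0 < η) (a κ : Fin s → ℕ) (ha : ∀ i, 1 ≤ a i)
    (hκ : ∀ i, 1 ≤ κ i) (B T U : ℕ) :
    ∃ N₀ : ℕ, ∀ N, N₀ ≤ N → ∀ k : Fin s → ℕ, (∀ i, N ≤ B * b i ^ k i ∧ b i ^ k i ≤ B * N) →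
      ∀ d : ∀ i, Fin (k i) → ℕ, (∀ i, Mixed (b i) (k i) η (d i)) →
      ∀ c : Fin s → ℕ, (∀ i, c i ≤ B * N) → ∀ L : ℕ, (L : ℝ) ≤ Real.log N ^ T →
      ∀ (w : ℕ → ℕ → ℂ) (g : ℕ → Fin s → ℕ → ℂ), (∀ l n, ‖w l n‖ ≤ 1) → (∀ l i m, ‖g l i m‖ ≤ 1) →
      (∀ l < L, ∃ i, LiouvilleOrMobius (g l i)) →
      ((univ.filter fun σ : ∀ i, Equiv.Perm (Fin (k i)) =>
        ¬ Good U L N a w g (fun i => c i + κ i * rearranged (b i) (d i) (σ i))).card : ℝ) ≤
      (∏ i, ((k i).factorial : ℝ)) / Real.log N ^ U := by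
  obtain ⟨n1, h1⟩ := Pool.Agent.V11251.DS.mix_perm s b hb η hη a (fun i => (κ i : ℤ)) ha
    (fun i => by have := hκ i; exact_mod_cast (by omega : κ i ≠ 0)) B T U
  refine ⟨n1, fun N hN k hk d hd c hc L hL w g hw hg hLM => ?_⟩
  exact h1 N hN k (fun i => ⟨(hk i).2, (hk i).1⟩) d (fun i => ⟨(hd i).1, (hd i).2⟩) (fun i => (c i : ℤ)) (fun i => by
      rw [abs_of_nonneg (by positivity)]; exact_mod_cast hc i) (Fin L) (by rw [Fintype.card_fin]; exact hL)
    (fun l n => w l n) (fun l i x => ext (g l i) x) (fun l n => hw l n) (fun l i x => ext_norm _ (hg l i) x)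
    (fun l => by
      obtain ⟨i, hi⟩ := hLM l l.2
      exact ⟨i, ext_LM _ hi⟩) (fun σ => Good U L N a w g (fun i => c i + κ i * rearranged (b i) (d i) (σ i))) (fun σ hv => by
      intro l hl X hX
      have h3 := hv ⟨l, hl⟩ X hX
      refine le_of_eq_of_le ?_ h3
      congr 1
      apply sum_congr rfl
      intro n hn
      congr 1
      apply prod_congr rfl
      intro i _
      exact (ext_form (g l i) (a i) (c i + κ i * rearranged (b i) (d i) (σ i)) n _ (by push_cast; rfl) (ha i) (mem_Icc.1 hn).1).symm)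

end Pool.Agent.Results.MP_0c9a68_nt.RearrangedShifts
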