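import Pool.Agent.V11113.MC.Oc
import Pool.Agent.V11113.MR.BilFam

/-!
# Correlations of multiplicative functions: shifts from thin families of residues

The families are the families of the least residues modulo `m` (an arbitrary integer of the size of `N`) of residues with
exponential sums `O(#s m ^ (-δ))`, with an arbitrarily small `δ > 0` (`Small`). Examples (part (2)): the values
`x · Q y + f(x) + g(y)` modulo a prime `p` at the pairs of vectors of two arbitrary sets with `#A #A' ≥ p ^ (d + 2 δ)`; for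
`d = 1` this contains the products of the elements of two arbitrary sets with `#A #A' ≥ p ^ (1 + 2 δ)` and the multiplicative
subgroups of order `p ^ (1 / 2 + δ)`. Nothing else is assumed about the families; they may have as few as about `m ^ (2 δ)`
different members.

From the starting files: the correlations of an arbitrary function with the Möbius function at one random shift of a given law
(`Pool.Agent.W93`); several shifts: helper251's `Pool.Agent.V11251.DS`. New: the families of residues (completion).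
-/

set_option autoImplicit false

namespace Pool.Agent.Results.MP_0c9a68_nt.ThinFamilies

open Finset Matrix

/-- The exponential sums over the family `u x ∈ ℤ / m`, `x ∈ s`, at all nonzero frequencies are at most `#s m ^ (-δ)`.
(`ZMod.stdAddChar` is the character `e(x / m)`.) -/
def Small (m : ℕ) [NeZero m] (δ : ℝ) {ι : Type} (s : Finset ι) (u : ι → ZMod m) : Prop :=
  ∀ b : ZMod m, b ≠ 0 → ‖∑ x ∈ s, (ZMod.stdAddChar (b * u x) : ℂ)‖ ≤ s.card * (m : ℝ) ^ (-δ)

/-- families of values of bilinear forms -/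
theorem small_bil (p : ℕ) [NeZero p] (hp : p.Prime) (δ : ℝ) (d : ℕ) (A A' : Finset (Fin d → ZMod p))
    (Q : Matrix (Fin d) (Fin d) (ZMod p)) (hQ : IsUnit Q.det) (h : (p : ℝ) ^ (d + 2 * δ) ≤ A.card * A'.card)
    (f g : (Fin d → ZMod p) → ZMod p) : Small p δ (A ×ˢ A') (fun z => z.1 ⬝ᵥ Q.mulVec z.2 + f z.1 + g z.2) := by
  have : Fact p.Prime := ⟨hp⟩
  exact fun b hb => Pool.Agent.V11113.MR.bil_small δ p d A A' Q hQ f g h b hb

/-- The function `f` is the Liouville function `λ(m) = (-1) ^ Ω(m)` or the Möbius function. -/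
def LiouvilleOrMobius (f : ℕ → ℂ) : Prop :=
  (∀ m, 1 ≤ m → f m = (-1) ^ ArithmeticFunction.cardFactors m) ∨ (∀ m, 1 ≤ m → f m = ((ArithmeticFunction.moebius m : ℤ) : ℂ))

/-- For the first `L` of the weights `w l` and vectors of functions `g l` and for all `X ≤ N`, the sum over `n ≤ X` of `w l n`
times the product of the `g l i (a i n + h i)`, `i < r`, is at most `N / log ^ U N` in absolute value. -/
def Good {r : ℕ} (U L N : ℕ) (a : Fin r → ℕ) (w : ℕ → ℕ → ℂ) (g : ℕ → Fin r → ℕ → ℂ) (h : Fin r → ℕ) : Prop :=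
  ∀ l < L, ∀ X ≤ N, ‖∑ n ∈ Icc 1 X, w l n * ∏ i, g l i (a i * n + h i)‖ ≤ N / Real.log N ^ U

/-- the extension to the integers -/
noncomputable def ext (f : ℕ → ℂ) (x : ℤ) : ℂ := if 1 ≤ x then f x.toNat else 0

lemma ext_norm (f : ℕ → ℂ) (hf : ∀ m, ‖f m‖ ≤ 1) (x : ℤ) : ‖ext f x‖ ≤ 1 := by
  unfold ext
  split_ifs
  · exact hf _
  · rw [norm_zero]; exact zero_le_one

lemma ext_LM (f : ℕ → ℂ) (hf : LiouvilleOrMobius f) : Pool.Agent.V11251.DS.LM (ext f) := by
  rcases hf with hf | hf
  · left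
    intro x
    unfold ext Pool.Agent.H373R2.T7.exI Pool.Agent.H373R2.T7.liR
    by_cases h : 1 ≤ x
    · rw [if_pos h, if_pos h, hf _ (by omega)]
    · rw [if_neg h, if_neg h]
  · right
    intro x
    unfold ext Pool.Agent.H373R2.T7.exI Pool.Agent.H373R2.T7.muC
    by_cases h : 1 ≤ x
    · rw [if_pos h, if_pos h, hf _ (by omega)]
    · rw [if_neg h, if_neg h]

lemma ext_form (f : ℕ → ℂ) (a h n : ℕ) (x : ℤ) (hx : x = (h : ℤ)) (ha : 1 ≤ a) (hn : 1 ≤ n) :
    ext f ((a : ℤ) * (n : ℤ) + x) = f (a * n + h) := by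
  have h1 : (a : ℤ) * (n : ℤ) + x = ((a * n + h : ℕ) : ℤ) := by rw [hx]; push_cast; rfl
  have h2 : 1 ≤ a * n := Nat.mul_pos ha hn
  unfold ext
  rw [h1, if_pos (by exact_mod_cast (by omega : 1 ≤ a * n + h)), Int.toNat_natCast]

open Classical in
/-- Let `r`, `B`, `T`, `U`, `δ > 0` and coefficients `a i ≥ 1` (`i < r`) be fixed.

(1) Let `N` be large, let `m i` be moduli with `N / B ≤ m i ≤ B N`, let `u i x ∈ ℤ / m i`, `x ∈ s i`, be ARBITRARY finite
families with exponential sums at most `#(s i) (m i) ^ (-δ)`, let `0 ≤ c i ≤ B N`. For `l < L ≤ log ^ T N` let `w l` and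
`g l 1, ..., g l r` be ARBITRARY functions bounded by `1` in absolute value, except that at least one of the functions
`g l 1, ..., g l r` should be the Liouville function or the Möbius function; in particular the other functions may be
arbitrary multiplicative functions, and they may depend on `N`. Then all the vectors `(x 1, ..., x r)`, `x i ∈ s i`, with the
exception of a proportion of at most `1 / log ^ U N` of these vectors, have the following property, with
`h i = c i + (least residue of u i (x i))`: for all `l < L` and all `X ≤ N`, the sum over `n ≤ X` of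
`w l n * ∏ i, g l i (a i n + h i)` is at most `N / log ^ U N` in absolute value.

(2) Let `p` be a prime, `d` arbitrary, let `A` and `A'` be arbitrary sets of vectors modulo `p` with
`#A #A' ≥ p ^ (d + 2 δ)`, let `Q` be an invertible matrix and let `f` and `g` be arbitrary functions. Then the family
`x · Q y + f(x) + g(y)`, `x ∈ A`, `y ∈ A'`, has exponential sums at most `#A #A' p ^ (-δ)`. -/
theorem result (r B T U : ℕ) (δ : ℝ) (hδ : 0 < δ) (a : Fin r → ℕ) (ha : ∀ i, 1 ≤ a i) :
    (∃ N₀ : ℕ, ∀ N, N₀ ≤ N → ∀ (m : Fin r → ℕ) [∀ i, NeZero (m i)], (∀ i, m i ≤ B * N ∧ N ≤ B * m i) →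
      ∀ (ι : Fin r → Type) (s : ∀ i, Finset (ι i)) (u : ∀ i, ι i → ZMod (m i)), (∀ i, Small (m i) δ (s i) (u i)) →
      ∀ c : Fin r → ℕ, (∀ i, c i ≤ B * N) → ∀ L : ℕ, (L : ℝ) ≤ Real.log N ^ T →
      ∀ (w : ℕ → ℕ → ℂ) (g : ℕ → Fin r → ℕ → ℂ), (∀ l n, ‖w l n‖ ≤ 1) → (∀ l i k, ‖g l i k‖ ≤ 1) →
      (∀ l < L, ∃ i, LiouvilleOrMobius (g l i)) →
      (((Fintype.piFinset s).filter fun x => ¬ Good U L N a w g (fun i => c i + (u i (x i)).val)).card : ℝ) ≤
        ((Fintype.piFinset s).card : ℝ) / Real.log N ^ U) ∧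
    (∀ (p : ℕ) [NeZero p], p.Prime → ∀ (d : ℕ) (A A' : Finset (Fin d → ZMod p)) (Q : Matrix (Fin d) (Fin d) (ZMod p)),
      IsUnit Q.det → (p : ℝ) ^ (d + 2 * δ) ≤ A.card * A'.card → ∀ f g : (Fin d → ZMod p) → ZMod p,
      Small p δ (A ×ˢ A') (fun z => z.1 ⬝ᵥ Q.mulVec z.2 + f z.1 + g z.2)) := by
  refine ⟨?_, fun p _ hp d A A' Q hQ h f g => small_bil p hp δ d A A' Q hQ h f g⟩
  obtain ⟨n1, h1⟩ := Pool.Agent.V11113.MC.res_two r B δ hδ a ha T (U + 1)
  obtain ⟨n2, h2⟩ := Pool.Agent.V11251.DS.pat_large (r * 2)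
  refine ⟨n1 + n2, fun N hN m _ hm ι s u hu c hc L hL w g hw hg hLM => ?_⟩
  obtain ⟨g1, g2, _⟩ := h2 N (by omega)
  exact Pool.Agent.V11251.DS.mix_count N T U Pool.Agent.V11251.DS.two a s
    (fun i x => (c i : ℤ) + ((u i x).val : ℤ)) g1 g2
    (fun i j => h1 N (by omega) i j (m i) (hm i).1 (hm i).2 (ι i) (s i) (u i) (hu i) (c i) (by
      rw [abs_of_nonneg (by positivity)]; exact_mod_cast hc i)) (Fin L) (by rw [Fintype.card_fin]; exact hL)
    (fun l n => w l n) (fun l n => hw l n) (fun l i x => ext (g l i) x) (fun l i x => ext_norm _ (hg l i) x)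
    (fun l => by
      obtain ⟨i, hi⟩ := hLM l l.2
      obtain ⟨j, hj⟩ := Pool.Agent.V11251.DS.LM_two (ext_LM _ hi)
      exact ⟨i, j, hj⟩) (fun x => Good U L N a w g (fun i => c i + (u i (x i)).val)) (fun x _ hv => by
      intro l hl X hX
      have h3 := hv ⟨l, hl⟩ X hX
      refine le_of_eq_of_le ?_ h3
      congr 1
      apply sum_congr rfl
      intro n hn
      congr 1
      apply prod_congr rfl
      intro i _
      exact (ext_form (g l i) (a i) (c i + (u i (x i)).val) n _ (by push_cast; rfl) (ha i) (mem_Icc.1 hn).1).symm)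

end Pool.Agent.Results.MP_0c9a68_nt.ThinFamilies
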